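import Pool.Agent.helper88.HT.Spec

/-! Row ht:LBL. -/

set_option autoImplicit false

namespace Pool.Agent.helper88.HT

open Pool.Agent.helper38.Neg Pool.Agent.helper55.NT

theorem LBL (h1 : LBM_stmt) : LBL_stmt := by
  intro b k n s hm C o hC hH
  obtain ⟨s', hs', C', o', hnot, hC'⟩ := h1 b n (min (k n) n) s (k n) (min_le_right _ _)
    (min_le_left _ _) C o (lang (min (k n) n)) (lang_mono _) hC hH
  have h2 := size_bound (K := 1) hm C' o' hC' (Or.inl (by rw [hnot]; norm_num))
  rw [Nat.cast_one, one_mul] at h2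
  refine h2.trans ?_
  have h3 : (s' : ℝ) ≤ 2 * s + 2 := by exact_mod_cast hs'
  linarith

end Pool.Agent.helper88.HT
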